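import Mathlib

/-!
# Maps of a circle in a space, by lifts
-/

set_option autoImplicit false

open Set Filter Topology

noncomputable section

namespace Pool.Agent.K4H46.CI

universe u

variable {N : Type u} [TopologicalSpace N]

/-- `γ` parametrizes a circle, with the period one. -/
structure IsCirc (γ : ℝ → N) : Prop where
  cont : Continuous γ
  inj : ∀ s t, γ s = γ t ↔ ∃ k : ℤ, s - t = k

theorem IsCirc.add_int {γ : ℝ → N} (h : IsCirc γ) (t : ℝ) (k : ℤ) : γ (t + k) = γ t :=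
  (h.inj _ _).2 ⟨k, by ring⟩

/-- lifts of maps of the circle -/
theorem IsCirc.lift [T2Space N] {γ : ℝ → N} (h : IsCirc γ) {F : N → N} (hF : Continuous F)
    (hinv : ∀ t, ∃ s, F (γ t) = γ s) : ∃ f : ℝ → ℝ, Continuous f ∧ ∀ t, F (γ t) = γ (f t) := by
  have hper : Function.Periodic γ 1 := by
    intro t
    have := h.add_int t 1
    simpa using this
  let c : AddCircle (1 : ℝ) → N := hper.lift
  have hc : ∀ t : ℝ, c (t : AddCircle (1 : ℝ)) = γ t := fun t => hper.lift_coe t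
  have hcc : Continuous c :=
    (QuotientAddGroup.isQuotientMap_mk (AddSubgroup.zmultiples (1 : ℝ))).continuous_iff.2 h.cont
  have hci : Function.Injective c := by
    intro a b hab
    induction a using QuotientAddGroup.induction_on with
    | H s =>
      induction b using QuotientAddGroup.induction_on with
      | H t =>
        have h1 : γ s = γ t := hab
        obtain ⟨k, hk⟩ := (h.inj s t).1 h1
        have h2 : ((s : ℝ) : AddCircle (1 : ℝ)) = (t : ℝ) := by
          rw [← sub_eq_zero, ← AddCircle.coe_sub, AddCircle.coe_eq_zero_iff]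
          exact ⟨k, by rw [hk, zsmul_one]⟩
        exact h2
  have hemb := hcc.isClosedEmbedding hci
  choose φ hφ using hinv
  have hφc : Continuous fun t : ℝ => ((φ t : ℝ) : AddCircle (1 : ℝ)) := by
    rw [hemb.isEmbedding.isInducing.continuous_iff]
    have e : (c ∘ fun t : ℝ => ((φ t : ℝ) : AddCircle (1 : ℝ))) = fun t => F (γ t) := by
      funext t
      show c _ = _
      rw [hc, hφ]
    rw [e]
    exact hF.comp h.cont
  obtain ⟨f, ⟨-, hf⟩, -⟩ := (AddCircle.isCoveringMap_coe (1 : ℝ)).existsUnique_continuousMap_lifts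
    (⟨_, hφc⟩ : C(ℝ, AddCircle (1 : ℝ))) 0 (φ 0) rfl
  refine ⟨f, f.continuous, fun t => ?_⟩
  have h1 : ((f t : ℝ) : AddCircle (1 : ℝ)) = (φ t : ℝ) := congrFun hf t
  rw [hφ, ← hc, ← hc, h1]

/-- `x` is recurrent -/
def RecAt (F : N → N) (x : N) : Prop := ∀ W ∈ 𝓝 x, ∃ k : ℕ, 1 ≤ k ∧ F^[k] x ∈ W

/-- a recurrent point whose orbit converges to a periodic orbit is periodic -/
theorem per_of_tendsto [T2Space N] {F : N → N} {x : N} (hr : RecAt F x) {M : ℕ} (hM : 1 ≤ M)
    (y : ℕ → N) (hy : ∀ r < M, Tendsto (fun q : ℕ => F^[M * q + r] x) atTop (𝓝 (y r)))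
    (hper : ∀ r < M, ∃ k : ℕ, 1 ≤ k ∧ F^[k] (y r) = y r) :
    ∃ k : ℕ, 1 ≤ k ∧ F^[k] x = x := by
  by_contra hx
  have hne : ∀ r < M, x ≠ y r := by
    intro r hr' he
    obtain ⟨k, hk, hk'⟩ := hper r hr'
    exact hx ⟨k, hk, by rw [he]; exact hk'⟩
  have h1 : ∀ r < M, ∃ W ∈ 𝓝 x, ∃ Q : ℕ, ∀ q ≥ Q, F^[M * q + r] x ∉ W := by
    intro r hr'
    obtain ⟨U, V', hU, hV, hxU, hyV, hd⟩ := t2_separation (hne r hr')
    obtain ⟨Q, hQ⟩ := eventually_atTop.1 ((hy r hr').eventually (hV.mem_nhds hyV))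
    exact ⟨U, hU.mem_nhds hxU, Q, fun q hq hm => disjoint_left.1 hd hm (hQ q hq)⟩
  have h2 : ∀ m ≤ M, ∃ W ∈ 𝓝 x, ∃ Q : ℕ, ∀ r < m, ∀ q ≥ Q, F^[M * q + r] x ∉ W := by
    intro m
    induction m with
    | zero => exact fun _ => ⟨univ, univ_mem, 0, fun r hr' => absurd hr' (Nat.not_lt_zero r)⟩
    | succ m ih =>
      intro hm
      obtain ⟨W, hW, Q, hQ⟩ := ih (by omega)
      obtain ⟨W', hW', Q', hQ'⟩ := h1 m (by omega)
      refine ⟨W ∩ W', inter_mem hW hW', max Q Q', fun r hr' q hq hmem => ?_⟩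
      rcases Nat.lt_succ_iff_lt_or_eq.1 hr' with h3 | h3
      · exact hQ r h3 q ((le_max_left _ _).trans hq) hmem.1
      · subst h3
        exact hQ' q ((le_max_right _ _).trans hq) hmem.2
  obtain ⟨W, hW, Q, hQ⟩ := h2 M le_rfl
  have h3 : (⋂ j ∈ Finset.Icc 1 (M * Q), {z : N | z ≠ F^[j] x}) ∈ 𝓝 x := by
    rw [Filter.biInter_finset_mem]
    intro j hj
    rw [Finset.mem_Icc] at hj
    exact isOpen_ne.mem_nhds fun he => hx ⟨j, hj.1, he.symm⟩
  obtain ⟨k, hk, hk'⟩ := hr _ (inter_mem hW h3)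
  by_cases hkQ : k ≤ M * Q
  · have h4 := hk'.2
    rw [mem_iInter₂] at h4
    exact h4 k (Finset.mem_Icc.2 ⟨hk, hkQ⟩) rfl
  · refine hQ (k % M) (Nat.mod_lt _ (by omega)) (k / M) ?_ ?_
    · exact (Nat.le_div_iff_mul_le (by omega)).2 (by rw [mul_comm]; omega)
    · rw [Nat.div_add_mod]
      exact hk'.1

/-- if some iterate has a fixed point on the circle, recurrent points on the circle are periodic -/
theorem IsCirc.per_of_fix [T2Space N] {γ : ℝ → N} (h : IsCirc γ) {F : N → N} (hF : Continuous F)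
    (hinj : Function.Injective F) {M : ℕ} (hM : 1 ≤ M) {f : ℝ → ℝ} (hf : Continuous f)
    (hmono : StrictMono f) (hfγ : ∀ t, F^[M] (γ t) = γ (f t)) {t₀ : ℝ} {p : ℤ}
    (hp : f t₀ = t₀ + p) (t : ℝ) (hrec : RecAt F (γ t)) : ∃ k : ℕ, 1 ≤ k ∧ F^[k] (γ t) = γ t := by
  obtain ⟨g, hg⟩ : ∃ g : ℝ → ℝ, ∀ s, g s = f s - p := ⟨_, fun s => rfl⟩
  have hgc : Continuous g := by
    have : g = fun s => f s - p := funext hg
    rw [this]
    exact hf.sub continuous_const
  have hgm : StrictMono g := fun a b hab => by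
    rw [hg, hg]
    linarith [hmono hab]
  have hg0 : g t₀ = t₀ := by rw [hg, hp]; ring
  have hgγ : ∀ s, F^[M] (γ s) = γ (g s) := by
    intro s
    rw [hfγ]
    have := h.add_int (g s) p
    rw [← this, hg, sub_add_cancel]
  have hit : ∀ (q : ℕ) s, F^[M * q] (γ s) = γ (g^[q] s) := by
    intro q
    induction q with
    | zero => intro s; rfl
    | succ q ih =>
      intro s
      rw [Nat.mul_succ, Function.iterate_add_apply, hgγ, ih, Function.iterate_succ_apply]
  have hIcc : ∀ s ∈ Icc t₀ (t₀ + 1), g s ∈ Icc t₀ (t₀ + 1) := by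
    intro s hs
    refine ⟨by rw [← hg0]; exact hgm.monotone hs.1, ?_⟩
    by_contra hn
    push Not at hn
    have hts : t₀ ≤ s := hs.1
    have h1 := intermediate_value_Ioo hts hgc.continuousOn
    have h2 : t₀ + 1 ∈ Ioo (g t₀) (g s) := ⟨by rw [hg0]; linarith, hn⟩
    obtain ⟨s', hs', hgs'⟩ := h1 h2
    have h3 : F^[M] (γ s') = F^[M] (γ t₀) := by
      rw [hgγ, hgγ, hgs', hg0]
      have := h.add_int t₀ 1
      simpa using this
    have h4 := (hinj.iterate M) h3
    obtain ⟨k, hk⟩ := (h.inj _ _).1 h4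
    have h5 : (0 : ℝ) < k := by rw [← hk]; linarith [hs'.1]
    have h6 : (k : ℝ) < 1 := by rw [← hk]; linarith [hs'.2, hs.2]
    have h7 : (0 : ℤ) < k := by exact_mod_cast h5
    have h8 : k < (1 : ℤ) := by exact_mod_cast h6
    omega
  obtain ⟨t', htt', ht'⟩ : ∃ t', γ t' = γ t ∧ t' ∈ Icc t₀ (t₀ + 1) := by
    refine ⟨t - ⌊t - t₀⌋, ?_, ?_, ?_⟩
    · have := h.add_int (t - ⌊t - t₀⌋) ⌊t - t₀⌋
      rw [← this, sub_add_cancel]
    · have := Int.floor_le (t - t₀)
      linarith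
    · have := Int.lt_floor_add_one (t - t₀)
      linarith
  rw [← htt'] at hrec ⊢
  have hb : ∀ q : ℕ, g^[q] t' ∈ Icc t₀ (t₀ + 1) := by
    intro q
    induction q with
    | zero => exact ht'
    | succ q ih => rw [Function.iterate_succ_apply']; exact hIcc _ ih
  obtain ⟨w, hw⟩ : ∃ w, Tendsto (fun q => g^[q] t') atTop (𝓝 w) := by
    rcases le_total t' (g t') with h1 | h1
    · have h2 := hgm.monotone.monotone_iterate_of_le_map h1
      exact ⟨_, tendsto_atTop_ciSup h2 ⟨t₀ + 1, by rintro _ ⟨q, rfl⟩; exact (hb q).2⟩⟩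
    · have h2 := hgm.monotone.antitone_iterate_of_map_le h1
      exact ⟨_, tendsto_atTop_ciInf h2 ⟨t₀, by rintro _ ⟨q, rfl⟩; exact (hb q).1⟩⟩
  have hgw : g w = w := isFixedPt_of_tendsto_iterate hw hgc.continuousAt
  have hFw : F^[M] (γ w) = γ w := by rw [hgγ, hgw]
  refine per_of_tendsto hrec hM (fun r => F^[r] (γ w)) (fun r _ => ?_) fun r _ => ⟨M, hM, ?_⟩
  · have h1 : (fun q : ℕ => F^[M * q + r] (γ t')) = fun q => F^[r] (γ (g^[q] t')) := by
      funext q
      rw [add_comm, Function.iterate_add_apply, hit]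
    rw [h1]
    exact (((hF.iterate r).comp h.cont).tendsto w).comp hw
  · rw [← Function.iterate_add_apply, add_comm, Function.iterate_add_apply, hFw]

/-- the case of a map which reverses the orientation of the circle -/
theorem IsCirc.per_of_anti [T2Space N] {γ : ℝ → N} (h : IsCirc γ) {F : N → N} (hF : Continuous F)
    (hinj : Function.Injective F) {m : ℕ} (hm : 1 ≤ m) {f : ℝ → ℝ} (hf : Continuous f)
    (hanti : StrictAnti f) (hfγ : ∀ t, F^[m] (γ t) = γ (f t)) (t : ℝ) (hrec : RecAt F (γ t)) :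
    ∃ k : ℕ, 1 ≤ k ∧ F^[k] (γ t) = γ t := by
  obtain ⟨j, hj⟩ : ∃ j : ℤ, f 1 - f 0 = j := by
    refine (h.inj _ _).1 ?_
    rw [← hfγ, ← hfγ]
    have := h.add_int 0 1
    simp only [Int.cast_one, zero_add] at this
    rw [this]
  have hj1 : (j : ℝ) < 0 := by
    rw [← hj]
    linarith [hanti (zero_lt_one' ℝ)]
  have hj2 : j ≤ -1 := by
    have : j < 0 := by exact_mod_cast hj1
    omega
  have hj3 : (j : ℝ) ≤ -1 := by exact_mod_cast hj2
  -- an integer between the values of `f t - t` at `0` and `1`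
  set a := f 0 with ha
  have h1 : f 1 - 1 ≤ (⌊a⌋ : ℝ) := by
    have := Int.lt_floor_add_one a
    linarith
  have h2 : (⌊a⌋ : ℝ) ≤ f 0 - 0 := by
    have := Int.floor_le a
    linarith
  have hc : ContinuousOn (fun t => f t - t) (Icc 0 1) := (hf.sub continuous_id).continuousOn
  have h3 := intermediate_value_Icc' zero_le_one hc
  obtain ⟨t₁, -, ht₁⟩ := h3 ⟨h1, h2⟩
  have ht₁' : f t₁ = t₁ + ⌊a⌋ := by
    have : f t₁ - t₁ = ⌊a⌋ := ht₁
    linarith
  have h4 : ∀ s, F^[m + m] (γ s) = γ (f (f s)) := by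
    intro s
    rw [Function.iterate_add_apply, hfγ, hfγ]
  have h5 : γ (f (f t₁)) = γ t₁ := by
    have e1 : γ (f t₁) = γ t₁ := by rw [ht₁', h.add_int]
    rw [← hfγ, e1, hfγ, e1]
  obtain ⟨p, hp⟩ := (h.inj _ _).1 h5
  exact h.per_of_fix hF hinj (M := m + m) (by omega) (hf.comp hf) (hanti.comp hanti) h4
    (t₀ := t₁) (p := p) (by show f (f t₁) = _; linarith) t hrec

end Pool.Agent.K4H46.CI
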