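import Pool.Agent.K4H46.CI.Circ

/-!
# Families of circle maps: closing and continuation of periodic points
-/

set_option autoImplicit false

open Set Filter Topology

noncomputable section

namespace Pool.Agent.K4H46.CI

universe u

variable {N : Type u} [TopologicalSpace N]

/-- the map `f` followed by the translation by `s` -/
def tr (f : ℝ → ℝ) (s : ℝ) : ℝ → ℝ := fun t => f t + s

theorem tr_cont {f : ℝ → ℝ} (hf : Continuous f) (k : ℕ) :
    Continuous fun q : ℝ × ℝ => (tr f q.1)^[k] q.2 := by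
  induction k with
  | zero => exact continuous_snd
  | succ k ih =>
    have e : (fun q : ℝ × ℝ => (tr f q.1)^[k + 1] q.2) =
        fun q : ℝ × ℝ => f ((tr f q.1)^[k] q.2) + q.1 := by
      funext q
      rw [Function.iterate_succ_apply']
      rfl
    rw [e]
    exact (hf.comp ih).add continuous_fst

theorem tr_ge {f : ℝ → ℝ} (hm : Monotone f) {s : ℝ} (hs : 0 ≤ s) (t : ℝ) (k : ℕ) :
    f^[k] t ≤ (tr f s)^[k] t := by
  induction k with
  | zero => exact le_rfl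
  | succ k ih =>
    rw [Function.iterate_succ_apply', Function.iterate_succ_apply']
    have := hm ih
    show f _ ≤ f _ + s
    linarith

theorem tr_le {f : ℝ → ℝ} (hm : Monotone f) {s : ℝ} (hs : s ≤ 0) (t : ℝ) (k : ℕ) :
    (tr f s)^[k] t ≤ f^[k] t := by
  induction k with
  | zero => exact le_rfl
  | succ k ih =>
    rw [Function.iterate_succ_apply', Function.iterate_succ_apply']
    have := hm ih
    show f _ + s ≤ f _
    linarith

theorem tr_ge' {f : ℝ → ℝ} (hm : Monotone f) {s : ℝ} (hs : 0 ≤ s) (t : ℝ) {k : ℕ} (hk : 1 ≤ k) :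
    f^[k] t + s ≤ (tr f s)^[k] t := by
  obtain ⟨k, rfl⟩ := Nat.exists_eq_add_of_le' hk
  rw [Function.iterate_succ_apply', Function.iterate_succ_apply']
  have := hm (tr_ge hm hs t k)
  show f _ + s ≤ f _ + s
  linarith

theorem tr_le' {f : ℝ → ℝ} (hm : Monotone f) {s : ℝ} (hs : s ≤ 0) (t : ℝ) {k : ℕ} (hk : 1 ≤ k) :
    (tr f s)^[k] t ≤ f^[k] t + s := by
  obtain ⟨k, rfl⟩ := Nat.exists_eq_add_of_le' hk
  rw [Function.iterate_succ_apply', Function.iterate_succ_apply']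
  have := hm (tr_le hm hs t k)
  show f _ + s ≤ f _ + s
  linarith

/-- closing of a recurrent orbit on a circle by rotations -/
theorem IsCirc.close [T2Space N] {γ : ℝ → N} (h : IsCirc γ) {F : N → N} {m : ℕ}
    {f : ℝ → ℝ} (hf : Continuous f) (hmono : StrictMono f) (hfγ : ∀ t, F^[m] (γ t) = γ (f t))
    (t₀ : ℝ) (hrec : ∀ W ∈ 𝓝 (γ t₀), ∃ k : ℕ, 1 ≤ k ∧ F^[m * k] (γ t₀) ∈ W) {δ : ℝ}
    (hδ : 0 < δ) : ∃ s : ℝ, |s| ≤ δ ∧ ∃ k : ℕ, 1 ≤ k ∧ ∃ p : ℤ, (tr f s)^[k] t₀ = t₀ + p := by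
  have hit : ∀ (q : ℕ) s, F^[m * q] (γ s) = γ (f^[q] s) := by
    intro q
    induction q with
    | zero => intro s; rfl
    | succ q ih =>
      intro s
      rw [Nat.mul_succ, Function.iterate_add_apply, hfγ, ih, Function.iterate_succ_apply]
  obtain ⟨e, he0, heδ, he1⟩ : ∃ e : ℝ, 0 < e ∧ e ≤ δ ∧ e ≤ 1 / 4 :=
    ⟨min δ (1 / 4), lt_min hδ (by norm_num), min_le_left _ _, min_le_right _ _⟩
  have hW : (γ '' Icc (t₀ + e) (t₀ + 1 - e))ᶜ ∈ 𝓝 (γ t₀) := by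
    refine ((isCompact_Icc.image h.cont).isClosed.isOpen_compl).mem_nhds ?_
    rintro ⟨u, hu, hut⟩
    obtain ⟨k, hk⟩ := (h.inj _ _).1 hut
    have h5 : (0 : ℝ) < k := by rw [← hk]; linarith [hu.1]
    have h6 : (k : ℝ) < 1 := by rw [← hk]; linarith [hu.2]
    have h7 : (0 : ℤ) < k := by exact_mod_cast h5
    have h8 : k < (1 : ℤ) := by exact_mod_cast h6
    omega
  obtain ⟨k, hk, hkW⟩ := hrec _ hW
  rw [hit] at hkW
  obtain ⟨τ, hτ⟩ : ∃ τ, τ = f^[k] t₀ := ⟨_, rfl⟩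
  rw [← hτ] at hkW
  set p := ⌊τ - t₀ + e⌋ with hp
  have h1 : (p : ℝ) ≤ τ - t₀ + e := Int.floor_le _
  have h2 : τ - t₀ + e < p + 1 := Int.lt_floor_add_one _
  have h3 : τ - p < t₀ + e := by
    by_contra hn
    push Not at hn
    refine hkW ⟨τ - p, ⟨hn, by linarith⟩, ?_⟩
    have := h.add_int (τ - p) p
    rw [← this, sub_add_cancel]
  have hc : Continuous fun s => (tr f s)^[k] t₀ :=
    (tr_cont hf k).comp (continuous_id.prodMk continuous_const)
  have h4 := intermediate_value_Icc (a := -e) (b := e) (by linarith) hc.continuousOn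
  have h5 : t₀ + p ∈ Icc ((tr f (-e))^[k] t₀) ((tr f e)^[k] t₀) := by
    have a1 := tr_ge' hmono.monotone he0.le t₀ hk
    have a2 := tr_le' hmono.monotone (s := -e) (by linarith) t₀ hk
    rw [← hτ] at a1 a2
    constructor <;> linarith
  obtain ⟨s, hs, hs'⟩ := h4 h5
  exact ⟨s, (abs_le.2 ⟨hs.1, hs.2⟩).trans heδ, k, hk, p, hs'⟩

/-- continuation of periodic points in a family of circle maps without degenerate periodic points -/
theorem cont_per {f : ℝ → ℝ} (hf : Continuous f) (hf1 : ∀ t, ∃ j : ℤ, f (t + 1) = f t + j) {δ : ℝ}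
    {k : ℕ} (hnd : ∀ s : ℝ, |s| ≤ δ → ∀ (t : ℝ) (p : ℤ), (tr f s)^[k] t = t + p →
      (∃ t₁, (tr f s)^[k] t₁ < t₁ + p) ∧ ∃ t₂, t₂ + p < (tr f s)^[k] t₂)
    (hex : ∃ s : ℝ, |s| ≤ δ ∧ ∃ (t : ℝ) (p : ℤ), (tr f s)^[k] t = t + p) :
    ∃ (t : ℝ) (p : ℤ), f^[k] t = t + p := by
  have hfn : ∀ (n : ℕ) t, ∃ j : ℤ, f (t + n) = f t + j := by
    intro n
    induction n with
    | zero => exact fun t => ⟨0, by simp⟩
    | succ n ih =>
      intro t
      obtain ⟨j, hj⟩ := ih t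
      obtain ⟨j', hj'⟩ := hf1 (t + n)
      refine ⟨j + j', ?_⟩
      push_cast
      rw [← add_assoc, hj', hj]
      ring
  have hfz : ∀ (n : ℤ) t, ∃ j : ℤ, f (t + n) = f t + j := by
    intro n t
    rcases le_total 0 n with h0 | h0
    · obtain ⟨a, rfl⟩ := Int.eq_ofNat_of_zero_le h0
      simpa using hfn a t
    · obtain ⟨a, ha⟩ := Int.eq_ofNat_of_zero_le (neg_nonneg.2 h0)
      obtain ⟨j, hj⟩ := hfn a (t + n)
      have e : t + n + a = t := by
        have : (n : ℝ) = -(a : ℝ) := by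
          have h1 : n = -(a : ℤ) := by omega
          rw [h1]; push_cast; ring
        rw [this]; ring
      rw [e] at hj
      exact ⟨-j, by push_cast; linarith⟩
  have htr : ∀ (s : ℝ) (q : ℕ) (t : ℝ) (n : ℤ), ∃ j : ℤ,
      (tr f s)^[q] (t + n) = (tr f s)^[q] t + j := by
    intro s q
    induction q with
    | zero => exact fun t n => ⟨n, rfl⟩
    | succ q ih =>
      intro t n
      obtain ⟨j, hj⟩ := ih t n
      obtain ⟨j', hj'⟩ := hfz j ((tr f s)^[q] t)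
      refine ⟨j', ?_⟩
      rw [Function.iterate_succ_apply', Function.iterate_succ_apply', hj]
      show f _ + s = f _ + s + j'
      rw [hj']
      ring
  have hc := tr_cont hf k
  let Z : Set (ℝ × ℝ) := (Icc (-δ) δ ×ˢ Icc 0 1) ∩
    (fun q : ℝ × ℝ => (tr f q.1)^[k] q.2 - q.2) ⁻¹' (range ((↑) : ℤ → ℝ))
  have hZ : IsCompact Z :=
    (isCompact_Icc.prod isCompact_Icc).inter_right
      (Int.isClosedEmbedding_coe_real.isClosed_range.preimage (hc.sub continuous_snd))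
  have hA : ∀ s, |s| ≤ δ → (s ∈ Prod.fst '' Z ↔ ∃ (t : ℝ) (p : ℤ), (tr f s)^[k] t = t + p) := by
    intro s hs
    constructor
    · rintro ⟨⟨s', t⟩, ⟨-, p, hp⟩, rfl⟩
      exact ⟨t, p, by
        have : (tr f s')^[k] t - t = p := hp.symm
        linarith⟩
    · rintro ⟨t, p, hp⟩
      obtain ⟨j, hj⟩ := htr s k (t - ⌊t⌋) ⌊t⌋
      rw [sub_add_cancel] at hj
      refine ⟨(s, t - ⌊t⌋), ⟨⟨abs_le.1 hs, ?_, ?_⟩, ⌊t⌋ + p - j, ?_⟩, rfl⟩
      · show 0 ≤ t - ⌊t⌋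
        linarith [Int.floor_le t]
      · show t - ⌊t⌋ ≤ 1
        linarith [Int.lt_floor_add_one t]
      · show ((⌊t⌋ + p - j : ℤ) : ℝ) = (tr f s)^[k] (t - ⌊t⌋) - (t - ⌊t⌋)
        push_cast
        linarith
  let U : Set ℝ := {s | ∃ (t₁ t₂ : ℝ) (p : ℤ), (tr f s)^[k] t₁ < t₁ + p ∧
    t₂ + p < (tr f s)^[k] t₂}
  have hU : IsOpen U := by
    have e : U = ⋃ t₁ : ℝ, ⋃ t₂ : ℝ, ⋃ p : ℤ, {s | (tr f s)^[k] t₁ < t₁ + p} ∩
        {s | t₂ + p < (tr f s)^[k] t₂} := by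
      ext s
      simp only [U, mem_setOf_eq, mem_iUnion, mem_inter_iff]
    rw [e]
    refine isOpen_iUnion fun t₁ => isOpen_iUnion fun t₂ => isOpen_iUnion fun p =>
      IsOpen.inter ?_ ?_
    · exact isOpen_lt (hc.comp (continuous_id.prodMk continuous_const)) continuous_const
    · exact isOpen_lt continuous_const (hc.comp (continuous_id.prodMk continuous_const))
  have hUA : ∀ s ∈ U, ∃ (t : ℝ) (p : ℤ), (tr f s)^[k] t = t + p := by
    rintro s ⟨t₁, t₂, p, h1, h2⟩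
    have hcs : Continuous fun t => (tr f s)^[k] t - t :=
      (hc.comp (continuous_const.prodMk continuous_id)).sub continuous_id
    have h3 := mem_range_of_exists_le_of_exists_ge (c := (p : ℝ)) hcs
      ⟨t₁, by show (tr f s)^[k] t₁ - t₁ ≤ p; linarith⟩
      ⟨t₂, by show (p : ℝ) ≤ (tr f s)^[k] t₂ - t₂; linarith⟩
    obtain ⟨t, ht⟩ := h3
    exact ⟨t, p, by
      have : (tr f s)^[k] t - t = p := ht
      linarith⟩
  obtain ⟨s₁, hs₁, t₁, p₁, h₁⟩ := hex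
  have hδ : 0 ≤ δ := (abs_nonneg s₁).trans hs₁
  by_contra hn
  have h0 : (0 : ℝ) ∉ Prod.fst '' Z := by
    rw [hA 0 (by simpa using hδ)]
    rintro ⟨t, p, hp⟩
    have e : tr f 0 = f := by
      funext t
      exact add_zero _
    rw [e] at hp
    exact hn ⟨t, p, hp⟩
  have hpre := isPreconnected_Icc (a := -δ) (b := δ) U (Prod.fst '' Z)ᶜ hU
    (hZ.image continuous_fst).isClosed.isOpen_compl ?_ ?_ ?_
  · obtain ⟨s, hs, hsU, hsZ⟩ := hpre
    exact hsZ ((hA s (abs_le.2 hs)).2 (hUA s hsU))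
  · intro s hs
    by_cases hsZ : s ∈ Prod.fst '' Z
    · obtain ⟨t, p, hp⟩ := (hA s (abs_le.2 hs)).1 hsZ
      obtain ⟨⟨t₁, h1⟩, t₂, h2⟩ := hnd s (abs_le.2 hs) t p hp
      exact Or.inl ⟨t₁, t₂, p, h1, h2⟩
    · exact Or.inr hsZ
  · obtain ⟨⟨a₁, h1⟩, a₂, h2⟩ := hnd s₁ hs₁ t₁ p₁ h₁
    exact ⟨s₁, abs_le.1 hs₁, a₁, a₂, p₁, h1, h2⟩
  · exact ⟨0, by constructor <;> linarith, h0⟩

end Pool.Agent.K4H46.CI
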