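import Pool.Agent.H718R2.G0

/-!
# Periodic smooth circles: definitions
-/

set_option autoImplicit false

open scoped Manifold ContDiff Topology

universe u

namespace Pool.Agent.K4H46.CI

open Pool.Agent.H718R2.G

/-- A smooth flow on the manifold `N`. -/
structure IsFlow (n : ℕ) (N : Type u) [TopologicalSpace N] [ChartedSpace (V n) N]
    (Φ : ℝ → N → N) : Prop where
  smooth : ContMDiff (𝓘(ℝ, ℝ).prod (𝓡 n)) (𝓡 n) ∞ (fun q : ℝ × N => Φ q.1 q.2)
  zero : ∀ y, Φ 0 y = y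
  add : ∀ a b y, Φ (a + b) y = Φ a (Φ b y)

/-- `y` lies on a periodic smooth circle `C` of `F`: for some `m ≥ 1` we have `F^m(C) ⊆ C`, and `C` is a
closed orbit (of positive length) of a smooth flow on `N` which does not move the points of `F(C)`,
..., `F^(m-1)(C)`.  (Every smoothly embedded circle `C` which is disjoint from `F(C)`, ...,
`F^(m-1)(C)` is such an orbit.)  Nothing is required of the map `F^m : C → C`. -/
def OnPerCircle (n : ℕ) {N : Type u} [TopologicalSpace N] [ChartedSpace (V n) N] (F : N → N)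
    (y : N) : Prop :=
  ∃ (Φ : ℝ → N → N) (T : ℝ) (m : ℕ), IsFlow n N Φ ∧ 0 < T ∧ Φ T y = y ∧ (∃ t, Φ t y ≠ y) ∧
    1 ≤ m ∧ (∀ t, ∃ s, F^[m] (Φ t y) = Φ s y) ∧
    ∀ i, 1 ≤ i → i < m → ∀ t s, Φ s (F^[i] (Φ t y)) = F^[i] (Φ t y)

end Pool.Agent.K4H46.CI
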