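import Pool.Agent.K4H46.CI.Cl
import Pool.Agent.Y504.CO.Gen

/-!
# Hyperbolic periodic points on invariant curves
-/

set_option autoImplicit false

open Set Filter Topology
open scoped Manifold ContDiff

noncomputable section

namespace Pool.Agent.K4H46.CI

open Pool.Agent.H718R2.G Pool.Agent.TH80.OMS Pool.Agent.Y504.CO

universe u

/-- a continuous solution of `b (f t) = c t` is differentiable -/
theorem der_of_comp {b c f : ℝ → ℝ} {b' c' t : ℝ} (hb : HasDerivAt b b' t) (hb' : b' ≠ 0)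
    (hc : HasDerivAt c c' t) (hf : ContinuousAt f t) (ht : f t = t) (h : ∀ᶠ s in 𝓝 t, b (f s) = c s) :
    HasDerivAt f (c' / b') t := by
  rw [hasDerivAt_iff_tendsto_slope] at hc ⊢
  have h1 : Tendsto (fun s => dslope b t (f s)) (𝓝[≠] t) (𝓝 b') := by
    have h2 : ContinuousAt (dslope b t) t := continuousAt_dslope_same.2 hb.differentiableAt
    have h3 : dslope b t t = b' := by rw [dslope_same, hb.deriv]
    have h4 : Tendsto f (𝓝[≠] t) (𝓝 t) := by
      have := hf.tendsto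
      rw [ht] at this
      exact this.mono_left nhdsWithin_le_nhds
    have h5 := h2.tendsto.comp h4
    rw [h3] at h5
    exact h5
  have h2 := hc.div h1 hb'
  refine h2.congr' ?_
  have h3 : ∀ᶠ s in 𝓝[≠] t, dslope b t (f s) ≠ 0 := h1.eventually_ne hb'
  filter_upwards [h3, h.filter_mono nhdsWithin_le_nhds, self_mem_nhdsWithin] with s hs hs' hst
  have hct : b t = c t := by
    have := h.self_of_nhds
    rwa [ht] at this
  have e1 : (f s - t) * dslope b t (f s) = c s - c t := by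
    rw [← hs', ← hct]
    exact sub_smul_dslope b t (f s)
  have hst' : s - t ≠ 0 := sub_ne_zero.2 hst
  show slope c t s / dslope b t (f s) = slope f t s
  rw [slope_def_field, slope_def_field, ht, div_eq_iff hs, div_mul_eq_mul_div, e1]

/-- both signs of a function with nonzero derivative -/
theorem both_signs {f : ℝ → ℝ} {c t : ℝ} {p : ℝ} (hf : HasDerivAt f c t) (hc : c ≠ 1)
    (h0 : f t = t + p) : (∃ t₁, f t₁ < t₁ + p) ∧ ∃ t₂, t₂ + p < f t₂ := by
  have h1 : HasDerivAt (fun s => f s - s - p) (c - 1) t :=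
    (hf.sub (hasDerivAt_id t)).sub_const p
  have h2 : c - 1 ≠ 0 := sub_ne_zero.2 hc
  constructor
  · by_contra hn
    push Not at hn
    have h3 : IsLocalMin (fun s => f s - s - p) t := by
      refine Eventually.of_forall fun s => ?_
      show f t - t - p ≤ f s - s - p
      linarith [hn s]
    exact h2 (h3.hasDerivAt_eq_zero h1)
  · by_contra hn
    push Not at hn
    have h3 : IsLocalMax (fun s => f s - s - p) t := by
      refine Eventually.of_forall fun s => ?_
      show f s - s - p ≤ f t - t - p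
      linarith [hn s]
    exact h2 (h3.hasDerivAt_eq_zero h1)

variable {n : ℕ} {N : Type u} [TopologicalSpace N] [T2Space N] [CompactSpace N]
  [ChartedSpace (V n) N] [IsManifold (𝓡 n) ∞ N]

/-- a hyperbolic periodic point on an invariant smooth curve is not degenerate on the curve -/
theorem nd_curve {G : N → N} {K : ℕ} (hK : 1 ≤ K) {γ : ℝ → N}
    (hγ : ContMDiff 𝓘(ℝ, ℝ) (𝓡 n) ∞ γ) {f : ℝ → ℝ} (hf : Continuous f)
    (hfγ : ∀ t, G^[K] (γ t) = γ (f t)) {t₀ p : ℝ} (hp : f t₀ = t₀ + p)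
    (hper : ∀ t, γ (t + p) = γ t) (hH : IsHyperbolicPer n G (γ t₀)) {e : N → ℝ}
    (he : ContMDiff (𝓡 n) 𝓘(ℝ, ℝ) ∞ e) (hd : deriv (fun t => e (γ t)) t₀ ≠ 0) :
    (∃ t₁, f t₁ < t₁ + p) ∧ ∃ t₂, t₂ + p < f t₂ := by
  obtain ⟨g, hg⟩ : ∃ g : ℝ → ℝ, ∀ s, g s = f s - p := ⟨_, fun s => rfl⟩
  have hgf : g = fun s => f s - p := funext hg
  have hgc : Continuous g := by
    rw [hgf]
    exact hf.sub continuous_const
  have hg0 : g t₀ = t₀ := by rw [hg, hp]; ring
  have hgγ : ∀ s, G^[K] (γ s) = γ (g s) := by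
    intro s
    rw [hfγ, ← hper (g s), hg, sub_add_cancel]
  set z := γ t₀ with hz
  set ψ := chartAt (V n) z with hψ
  have hzs : z ∈ ψ.source := mem_chart_source (V n) z
  have hGz : G^[K] z = z := by rw [hz, hgγ, hg0]
  have hat : ψ ∈ IsManifold.maximalAtlas (𝓡 n) ∞ N := IsManifold.chart_mem_maximalAtlas z
  obtain ⟨D, hD, hroot⟩ := hH.2 K hK hGz ψ hat hzs
  have hnear : ∀ᶠ s in 𝓝 t₀, γ s ∈ ψ.source :=
    hγ.continuous.continuousAt (ψ.open_source.mem_nhds hzs)
  have hnear' : ∀ᶠ s in 𝓝 t₀, γ (g s) ∈ ψ.source := by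
    have h1 : ContinuousAt (fun s => γ (g s)) t₀ := (hγ.continuous.comp hgc).continuousAt
    refine h1 (ψ.open_source.mem_nhds ?_)
    show γ (g t₀) ∈ ψ.source
    rw [hg0]
    exact hzs
  -- the curve in the chart
  obtain ⟨v, hβ⟩ : ∃ v, HasDerivAt (fun s => ψ (γ s)) v t₀ := by
    have h1 : ContMDiffAt (𝓡 n) 𝓘(ℝ, V n) ∞ ψ (γ t₀) :=
      contMDiffAt_of_mem_maximalAtlas hat hzs
    have h2 := h1.comp t₀ (hγ t₀)
    rw [contMDiffAt_iff_contDiffAt] at h2
    exact ⟨_, (h2.differentiableAt (by simp)).hasDerivAt⟩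
  obtain ⟨L, hL⟩ : ∃ L, HasFDerivAt (fun w => e (ψ.symm w)) L (ψ z) := by
    have h1 : ContMDiffAt 𝓘(ℝ, V n) (𝓡 n) ∞ ψ.symm (ψ z) :=
      contMDiffAt_symm_of_mem_maximalAtlas hat (ψ.map_source hzs)
    have h3 : ContMDiffAt (𝓡 n) 𝓘(ℝ, ℝ) ∞ e (ψ.symm (ψ z)) := he _
    have h2 := h3.comp (ψ z) h1
    rw [contMDiffAt_iff_contDiffAt] at h2
    exact ⟨_, (h2.differentiableAt (by simp)).hasFDerivAt⟩
  have hb : HasDerivAt (fun s => e (γ s)) (L v) t₀ := by
    have h1 := hL.comp_hasDerivAt t₀ hβ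
    refine h1.congr_of_eventuallyEq ?_
    filter_upwards [hnear] with s hs
    show e (γ s) = e (ψ.symm (ψ (γ s)))
    rw [ψ.left_inv hs]
  have hLv : L v ≠ 0 := by rwa [hb.deriv] at hd
  have hv : v ≠ 0 := by
    rintro rfl
    exact hLv (map_zero L)
  have hDv : HasDerivAt (fun s => ψ (G^[K] (ψ.symm (ψ (γ s))))) (D v) t₀ := by
    have hD' : HasFDerivAt (fun v => ψ (G^[K] (ψ.symm v))) D ((fun s => ψ (γ s)) t₀) := hD
    exact hD'.comp_hasDerivAt t₀ hβ
  have hz2 : ψ (G^[K] (ψ.symm (ψ (γ t₀)))) = ψ z := by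
    rw [ψ.left_inv hzs, hGz]
  have hc : HasDerivAt (fun s => e (G^[K] (γ s))) (L (D v)) t₀ := by
    have h0 : HasFDerivAt (fun w => e (ψ.symm w)) L (ψ (G^[K] (ψ.symm (ψ (γ t₀))))) := by
      rw [hz2]
      exact hL
    have h1 := h0.comp_hasDerivAt t₀ hDv
    refine h1.congr_of_eventuallyEq ?_
    filter_upwards [hnear, hnear'] with s hs hs'
    show e (G^[K] (γ s)) = e (ψ.symm (ψ (G^[K] (ψ.symm (ψ (γ s))))))
    rw [ψ.left_inv hs, hgγ, ψ.left_inv hs']
  have hgd : HasDerivAt g (L (D v) / L v) t₀ := by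
    refine der_of_comp hb hLv hc hgc.continuousAt hg0 (Eventually.of_forall fun s => ?_)
    show e (γ (g s)) = e (G^[K] (γ s))
    rw [hgγ]
  set lam := L (D v) / L v with hlam
  have hDv2 : D v = lam • v := by
    have h1 : HasDerivAt (fun s => ψ (γ (g s))) (lam • v) t₀ := by
      have h2 : HasDerivAt (fun s => ψ (γ s)) v (g t₀) := by rw [hg0]; exact hβ
      exact h2.scomp t₀ hgd
    refine hDv.unique (h1.congr_of_eventuallyEq ?_)
    filter_upwards [hnear] with s hs
    rw [ψ.left_inv hs, hgγ]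
  have hne : lam ≠ 1 := by
    intro h1
    rw [h1, one_smul] at hDv2
    have h2 : Module.End.HasEigenvector ((D : V n →ₗ[ℝ] V n)) 1 v := by
      rw [Module.End.hasEigenvector_iff, Module.End.mem_eigenspace_iff]
      exact ⟨by rw [one_smul]; exact hDv2, hv⟩
    have h3 := (Module.End.hasEigenvalue_of_hasEigenvector h2)
    rw [Module.End.hasEigenvalue_iff_isRoot_charpoly] at h3
    have h4 := h3.map (f := algebraMap ℝ ℂ)
    refine hroot _ h4 ?_
    simp
  have hfd : HasDerivAt f lam t₀ := by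
    have h1 := hgd.add_const p
    have h2 : (fun s => g s + p) = f := by
      funext s
      rw [hg, sub_add_cancel]
    rwa [h2] at h1
  exact both_signs hfd hne hp

end Pool.Agent.K4H46.CI
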