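import Pool.Agent.K4H46.CI.Def
import Pool.Agent.K4H46.CI.Nd
import Pool.Agent.R774.OS1

/-!
# Flows and closed orbits
-/

set_option autoImplicit false

open Set Filter Topology
open scoped Manifold ContDiff

noncomputable section

namespace Pool.Agent.K4H46.CI

open Pool.Agent.H718R2.G Pool.Agent.TH80.OMS Pool.Agent.Y504.CO Pool.Agent.R774.ClStmt
open Pool.Agent.R774.Cl

universe u

variable {n : ℕ} {N : Type u} [TopologicalSpace N] [T2Space N] [CompactSpace N]
  [ChartedSpace (V n) N] [IsManifold (𝓡 n) ∞ N]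

theorem IsFlow.orb {Φ : ℝ → N → N} (h : IsFlow n N Φ) (y : N) :
    ContMDiff 𝓘(ℝ, ℝ) (𝓡 n) ∞ fun t => Φ t y :=
  h.smooth.comp (contMDiff_id.prodMk contMDiff_const)

theorem IsFlow.map {Φ : ℝ → N → N} (h : IsFlow n N Φ) (s : ℝ) :
    ContMDiff (𝓡 n) (𝓡 n) ∞ fun y => Φ s y :=
  h.smooth.comp (contMDiff_const.prodMk contMDiff_id)

/-- the velocity of an orbit which is not constant does not vanish -/
theorem IsFlow.noncrit {Φ : ℝ → N → N} (h : IsFlow n N Φ) {y : N} (hy : ∃ t, Φ t y ≠ y)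
    (t₀ : ℝ) : ∃ e : N → ℝ, ContMDiff (𝓡 n) 𝓘(ℝ, ℝ) ∞ e ∧ deriv (fun t => e (Φ t y)) t₀ ≠ 0 := by
  by_contra hn
  push Not at hn
  have hall : ∀ e : N → ℝ, ContMDiff (𝓡 n) 𝓘(ℝ, ℝ) ∞ e → ∀ t,
      HasDerivAt (fun t => e (Φ t y)) 0 t := by
    intro e he t
    have h1 : ContMDiff (𝓡 n) 𝓘(ℝ, ℝ) ∞ fun z => e (Φ (t - t₀) z) := he.comp (h.map _)
    have h2 := hn _ h1
    have h3 : ContDiff ℝ ∞ fun s => e (Φ (t - t₀) (Φ s y)) := (h1.comp (h.orb y)).contDiff
    have h4 : HasDerivAt (fun s => e (Φ (t - t₀) (Φ s y))) 0 t₀ := by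
      have h5 := (h3.differentiable (by simp) t₀).hasDerivAt
      rwa [h2] at h5
    have h6 : HasDerivAt (fun s : ℝ => s - (t - t₀)) 1 t := (hasDerivAt_id t).sub_const _
    have h7 : HasDerivAt (fun s => e (Φ (t - t₀) (Φ s y))) 0 ((fun s : ℝ => s - (t - t₀)) t) := by
      show HasDerivAt _ 0 (t - (t - t₀))
      rw [sub_sub_cancel]
      exact h4
    have h8 := HasDerivAt.comp (h := fun s : ℝ => s - (t - t₀)) t h7 h6
    rw [zero_mul] at h8
    have h9 : ((fun s => e (Φ (t - t₀) (Φ s y))) ∘ fun s : ℝ => s - (t - t₀)) =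
        fun s => e (Φ s y) := by
      funext s
      show e (Φ (t - t₀) (Φ (s - (t - t₀)) y)) = e (Φ s y)
      rw [← h.add]
      congr 2
      ring
    rwa [h9] at h8
  obtain ⟨M, d, hd1, hd2, -⟩ := exists_embedding_euclidean_of_compact (I := 𝓡 n) (M := N)
  obtain ⟨t, ht⟩ := hy
  apply ht
  apply hd2.injective
  ext j
  have h1 : ContMDiff (𝓡 n) 𝓘(ℝ, ℝ) ∞ fun z => d z j := by
    have h2 : ContMDiff (𝓡 M) 𝓘(ℝ, ℝ) ∞ fun w : EuclideanSpace ℝ (Fin M) => w j :=
      (EuclideanSpace.proj (𝕜 := ℝ) j).contDiff.contMDiff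
    exact h2.comp hd1
  have h2 := is_const_of_deriv_eq_zero (f := fun t => d (Φ t y) j)
    (fun s => (hall _ h1 s).differentiableAt) (fun s => (hall _ h1 s).deriv) t 0
  simp only [h.zero] at h2
  exact h2

/-- the time of a flow can be rescaled -/
theorem IsFlow.scale {Φ : ℝ → N → N} (h : IsFlow n N Φ) (c : ℝ) :
    IsFlow n N fun t y => Φ (c * t) y where
  smooth := by
    have h1 : ContMDiff (𝓘(ℝ, ℝ).prod (𝓡 n)) (𝓘(ℝ, ℝ).prod (𝓡 n)) ∞
        fun q : ℝ × N => (c * q.1, q.2) := by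
      refine ContMDiff.prodMk ?_ contMDiff_snd
      have h2 : ContMDiff 𝓘(ℝ, ℝ) 𝓘(ℝ, ℝ) ∞ fun t : ℝ => c * t :=
        (contDiff_const.mul contDiff_id).contMDiff
      exact h2.comp contMDiff_fst
    exact h.smooth.comp h1
  zero y := by
    show Φ (c * 0) y = y
    rw [mul_zero, h.zero]
  add a b y := by
    show Φ (c * (a + b)) y = _
    rw [mul_add, h.add]

/-- a closed orbit is a circle -/
theorem IsFlow.circ {Φ : ℝ → N → N} (h : IsFlow n N Φ) {y : N} {T : ℝ} (hT : 0 < T)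
    (hTy : Φ T y = y) (hy : ∃ t, Φ t y ≠ y) :
    ∃ c : ℝ, 0 < c ∧ IsCirc fun t => Φ (c * t) y := by
  let S : AddSubgroup ℝ :=
    { carrier := {t | Φ t y = y}
      zero_mem' := h.zero y
      add_mem' := by
        intro a b ha hb
        show Φ (a + b) y = y
        rw [h.add, show Φ b y = y from hb]
        exact ha
      neg_mem' := by
        intro a ha
        show Φ (-a) y = y
        have h1 : Φ (-a) (Φ a y) = y := by rw [← h.add, neg_add_cancel, h.zero]
        rwa [show Φ a y = y from ha] at h1 }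
  have hc : Continuous fun t => Φ t y := (h.orb y).continuous
  have hcl : IsClosed (S : Set ℝ) := isClosed_eq hc continuous_const
  have hmem : ∀ t, t ∈ S ↔ Φ t y = y := fun t => Iff.rfl
  rcases AddSubgroup.dense_or_cyclic S with hd | ⟨a, ha⟩
  · exfalso
    obtain ⟨t, ht⟩ := hy
    have : (S : Set ℝ) = univ := by rw [← hcl.closure_eq]; exact hd.closure_eq
    exact ht ((hmem t).1 (by rw [← SetLike.mem_coe, this]; trivial))
  have ha0 : a ≠ 0 := by
    rintro rfl
    have h1 : T ∈ S := hTy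
    rw [ha, AddSubgroup.mem_closure_singleton] at h1
    obtain ⟨k, hk⟩ := h1
    rw [smul_zero] at hk
    linarith
  refine ⟨|a|, abs_pos.2 ha0, ⟨hc.comp (continuous_const.mul continuous_id), fun s t => ?_⟩⟩
  have h1 : Φ (|a| * s) y = Φ (|a| * t) y ↔ |a| * (s - t) ∈ S := by
    rw [hmem]
    constructor
    · intro h2
      have h3 : |a| * (s - t) = -(|a| * t) + |a| * s := by ring
      rw [h3, h.add, h2, ← h.add, neg_add_cancel, h.zero]
    · intro h2
      have h3 : |a| * s = |a| * t + |a| * (s - t) := by ring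
      rw [h3, h.add, h2]
  show Φ (|a| * s) y = Φ (|a| * t) y ↔ _
  rw [h1, ha, AddSubgroup.mem_closure_singleton]
  constructor
  · rintro ⟨k, hk⟩
    rcases abs_choice a with hab | hab
    · refine ⟨k, ?_⟩
      rw [hab, zsmul_eq_mul] at hk
      have : a * (s - t) = a * k := by rw [← hk]; ring
      exact mul_left_cancel₀ ha0 this
    · refine ⟨-k, ?_⟩
      rw [hab, zsmul_eq_mul] at hk
      have : a * (s - t) = a * (-k : ℝ) := by linarith
      rw [mul_left_cancel₀ ha0 this]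
      push_cast
      rfl
  · rintro ⟨k, hk⟩
    rcases abs_choice a with hab | hab
    · exact ⟨k, by rw [hab, hk, zsmul_eq_mul]; ring⟩
    · exact ⟨-k, by rw [hab, hk, zsmul_eq_mul]; push_cast; ring⟩

/-- the composition of a diffeomorphism with the maps of a flow -/
theorem IsFlow.family {Φ : ℝ → N → N} (h : IsFlow n N Φ) {r : ℕ∞} (hr : 1 ≤ r) (F : DiffM n N r)
    (z : N) (U : Set (DiffM n N r)) (hU : IsOpen[strongTop n N r] U) (hF : F ∈ U) :
    ∃ (H : ℝ → DiffM n N r) (κ : ℝ), 0 < κ ∧ (∀ s y, H s y = Φ s (F y)) ∧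
      ∀ s : ℝ, |s| < κ → H s ∈ U := by
  have hact : IsAction 1 n N fun (v : V 1) y => Φ (v 0) y := by
    refine ⟨?_, fun y => ?_, fun a b y => ?_⟩
    · have h1 : ContMDiff ((𝓡 1).prod (𝓡 n)) (𝓘(ℝ, ℝ).prod (𝓡 n)) ∞
          fun q : V 1 × N => (q.1 0, q.2) := by
        refine ContMDiff.prodMk ?_ contMDiff_snd
        have h2 : ContMDiff (𝓡 1) 𝓘(ℝ, ℝ) ∞ fun v : V 1 => v 0 :=
          (EuclideanSpace.proj (𝕜 := ℝ) (0 : Fin 1)).contDiff.contMDiff
        exact h2.comp contMDiff_fst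
      exact h.smooth.comp h1
    · exact h.zero y
    · exact h.add _ _ y
  obtain ⟨κ, hκ, hmem⟩ := Pool.Agent.TH80.CLX.fam_mem r hr (famD hact r F) (famD_isFam hact r F)
    z U hU (by rw [famD_zero]; exact hF)
  refine ⟨fun s => famD hact r F (EuclideanSpace.single 0 s), κ, hκ, fun s y => ?_, fun s hs => ?_⟩
  · rw [famD_apply]
    simp
  · refine hmem _ ?_
    rwa [EuclideanSpace.norm_single, Real.norm_eq_abs]

end Pool.Agent.K4H46.CI
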