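import Pool.Agent.K4H46.CI.Fw
import Pool.Agent.Y318.MN.Main

/-!
# Recurrent points on periodic smooth circles of `Ω`-stable diffeomorphisms are periodic
-/

set_option autoImplicit false

open Set Filter Topology
open scoped Manifold ContDiff

noncomputable section

namespace Pool.Agent.K4H46.CI

open Pool.Agent.H718R2.G Pool.Agent.TH80.OMS Pool.Agent.Y504.CO

universe u

/-- a locally injective continuous function is injective -/
theorem inj_of_loc {f : ℝ → ℝ} (hf : Continuous f)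
    (h : ∀ s t, f s = f t → |s - t| < 1 → s = t) : Function.Injective f := by
  have hlt : ∀ s t, s < t → f s ≠ f t := by
    intro s t hst he
    obtain ⟨u, hu, hext⟩ := exists_isLocalExtr_Ioo hst hf.continuousOn he
    have hinj : InjOn f (Icc (u - 1 / 4) (u + 1 / 4)) := by
      intro a ha b hb hab
      refine h a b hab ?_
      rw [abs_lt]
      constructor <;> linarith [ha.1, ha.2, hb.1, hb.2]
    have hu0 : u ∈ Icc (u - 1 / 4) (u + 1 / 4) := ⟨by linarith, by linarith⟩
    have hr : ∃ᶠ x in 𝓝 u, x ∈ Ioo u (u + 1 / 4) := by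
      rw [frequently_iff]
      intro W hW
      have h1 : W ∩ Iio (u + 1 / 4) ∈ 𝓝[>] u :=
        nhdsWithin_le_nhds (inter_mem hW (Iio_mem_nhds (by linarith)))
      obtain ⟨x, hx1, hx2⟩ := Filter.nonempty_of_mem (inter_mem h1 self_mem_nhdsWithin)
      exact ⟨x, hx1.1, hx2, hx1.2⟩
    have hl : ∃ᶠ x in 𝓝 u, x ∈ Ioo (u - 1 / 4) u := by
      rw [frequently_iff]
      intro W hW
      have h1 : W ∩ Ioi (u - 1 / 4) ∈ 𝓝[<] u :=
        nhdsWithin_le_nhds (inter_mem hW (Ioi_mem_nhds (by linarith)))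
      obtain ⟨x, hx1, hx2⟩ := Filter.nonempty_of_mem (inter_mem h1 self_mem_nhdsWithin)
      exact ⟨x, hx1.1, hx1.2, hx2⟩
    rcases ContinuousOn.strictMonoOn_of_injOn_Icc' (by linarith) hf.continuousOn hinj
      with hm | hm
    · rcases hext with hmin | hmax
      · obtain ⟨x, hx, hx'⟩ := (hl.and_eventually hmin).exists
        have := hm ⟨hx.1.le, by linarith [hx.2]⟩ hu0 hx.2
        exact absurd hx' (not_le.2 this)
      · obtain ⟨x, hx, hx'⟩ := (hr.and_eventually hmax).exists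
        have := hm hu0 ⟨by linarith [hx.1], hx.2.le⟩ hx.1
        exact absurd hx' (not_le.2 this)
    · rcases hext with hmin | hmax
      · obtain ⟨x, hx, hx'⟩ := (hr.and_eventually hmin).exists
        have := hm hu0 ⟨by linarith [hx.1], hx.2.le⟩ hx.1
        exact absurd hx' (not_le.2 this)
      · obtain ⟨x, hx, hx'⟩ := (hl.and_eventually hmax).exists
        have := hm ⟨hx.1.le, by linarith [hx.2]⟩ hu0 hx.2
        exact absurd hx' (not_le.2 this)
  intro s t he
  rcases lt_trichotomy s t with h1 | h1 | h1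
  · exact absurd he (hlt s t h1)
  · exact h1
  · exact absurd he.symm (hlt t s h1)

variable {n : ℕ} {N : Type u} [TopologicalSpace N] [T2Space N] [CompactSpace N]
  [ChartedSpace (V n) N] [IsManifold (𝓡 n) ∞ N]

/-- all diffeomorphisms near an `Ω`-stable one have only hyperbolic periodic points -/
theorem hyp_near {r : ℕ∞} (hr : 1 ≤ r) {F : DiffM n N r} (hF : OmegaStable n N r F) :
    ∃ U : Set (DiffM n N r), IsOpen[strongTop n N r] U ∧ F ∈ U ∧ ∀ G ∈ U,
      ∀ p ∈ Per G, IsHyperbolicPer n G p := by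
  obtain ⟨U, hU, hFU, hconj⟩ := hF
  refine ⟨U, hU, hFU, fun G hG => ?_⟩
  have hGF : OmegaConj G F := Pool.Agent.Y318.MN.omegaConj_symm F.continuous (hconj G hG)
  exact Gen.stable_hyp hr ⟨U, hU, hG, fun G' hG' =>
    Pool.Agent.Y318.MN.omegaConj_trans hGF (hconj G' hG')⟩

/-- **Recurrent points on periodic smooth circles are periodic.** -/
theorem circle_per {r : ℕ∞} (hr : 1 ≤ r) {F : DiffM n N r} {U : Set (DiffM n N r)}
    (hU : IsOpen[strongTop n N r] U) (hFU : F ∈ U)
    (hH : ∀ G ∈ U, ∀ p ∈ Per G, IsHyperbolicPer n G p) {y : N} (hy : OnPerCircle n F y)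
    (hrec : y ∈ Rec F) : y ∈ Per F := by
  obtain ⟨Φ, T, m, hΦ, hT, hTy, hne, hm, hinv, hfix⟩ := hy
  obtain ⟨c, hc, hcirc⟩ := hΦ.circ hT hTy hne
  set Ψ : ℝ → N → N := fun t z => Φ (c * t) z with hΨdef
  have hΨ : IsFlow n N Ψ := hΦ.scale c
  set γ : ℝ → N := fun t => Ψ t y with hγdef
  have hγc : IsCirc γ := hcirc
  have hγ0 : γ 0 = y := hΨ.zero y
  have hcont : Continuous F := F.continuous
  have hinj : Function.Injective F := F.injective
  have hne' : ∃ t, Ψ t y ≠ y := by
    obtain ⟨t, ht⟩ := hne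
    refine ⟨t / c, ?_⟩
    show Φ (c * (t / c)) y ≠ y
    rwa [mul_div_cancel₀ _ hc.ne']
  have hinv' : ∀ t, ∃ s, F^[m] (γ t) = γ s := by
    intro t
    obtain ⟨s, hs⟩ := hinv (c * t)
    refine ⟨s / c, ?_⟩
    show F^[m] (Φ (c * t) y) = Φ (c * (s / c)) y
    rw [mul_div_cancel₀ _ hc.ne', hs]
  have hfix' : ∀ i, 1 ≤ i → i < m → ∀ t s, Ψ s (F^[i] (γ t)) = F^[i] (γ t) := by
    intro i hi1 hi2 t s
    exact hfix i hi1 hi2 (c * t) (c * s)
  obtain ⟨f, hf, hfγ⟩ := hγc.lift (hcont.iterate m) hinv'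
  have hfinj : Function.Injective f := by
    refine inj_of_loc hf fun s t hst hlt => ?_
    have h1 : γ s = γ t := (hinj.iterate m) (by rw [hfγ, hfγ, hst])
    obtain ⟨k, hk⟩ := (hγc.inj _ _).1 h1
    rw [hk] at hlt
    have h2 : |k| < 1 := by exact_mod_cast hlt
    have h3 : k = 0 := Int.abs_lt_one_iff.1 h2
    rw [h3] at hk
    have : s - t = 0 := by simpa using hk
    linarith
  have hrecAt : RecAt F (γ 0) := by
    rw [hγ0]
    exact hrec
  have hgoal : (∃ k : ℕ, 1 ≤ k ∧ F^[k] (γ 0) = γ 0) → y ∈ Per F := by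
    rw [hγ0]
    exact fun h => h
  apply hgoal
  rcases hf.strictMono_of_inj hfinj with hmono | hanti
  swap
  · exact hγc.per_of_anti hcont hinj hm hf hanti hfγ 0 hrecAt
  -- the first return
  have hit : ∀ (q : ℕ) s, F^[m * q] (γ s) = γ (f^[q] s) := by
    intro q
    induction q with
    | zero => intro s; rfl
    | succ q ih =>
      intro s
      rw [Nat.mul_succ, Function.iterate_add_apply, hfγ, ih, Function.iterate_succ_apply]
  have hrec' : ∀ W ∈ 𝓝 (γ 0), ∃ k : ℕ, 1 ≤ k ∧ F^[m * k] (γ 0) ∈ W := by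
    intro W hW
    have hO : {z : N | Ψ (1 / 2) z ≠ z} ∈ 𝓝 (γ 0) := by
      refine (isOpen_ne_fun (hΨ.map _).continuous continuous_id).mem_nhds ?_
      show Ψ (1 / 2) (γ 0) ≠ γ 0
      rw [hγ0]
      intro h1
      have h2 : γ (1 / 2) = γ 0 := by rw [hγ0]; exact h1
      obtain ⟨k, hk⟩ := (hγc.inj _ _).1 h2
      have h3 : (0 : ℝ) < k := by rw [← hk]; norm_num
      have h4 : (k : ℝ) < 1 := by rw [← hk]; norm_num
      have h5 : (0 : ℤ) < k := by exact_mod_cast h3
      have h6 : k < (1 : ℤ) := by exact_mod_cast h4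
      omega
    obtain ⟨k, hk, hkW, hkO⟩ := hrecAt _ (inter_mem hW hO)
    have hmod : k % m = 0 := by
      by_contra h0
      apply hkO
      have h1 : F^[k] (γ 0) = F^[k % m] (γ (f^[k / m] 0)) := by
        rw [← hit, ← Function.iterate_add_apply, Nat.mod_add_div]
      rw [h1]
      exact hfix' _ (Nat.one_le_iff_ne_zero.2 h0) (Nat.mod_lt _ (by omega)) _ _
    have hk2 : m * (k / m) = k := by
      have := Nat.mod_add_div k m
      omega
    refine ⟨k / m, ?_, by rw [hk2]; exact hkW⟩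
    by_contra h0
    have h1 : k / m = 0 := Nat.lt_one_iff.1 (not_le.1 h0)
    rw [h1, mul_zero] at hk2
    omega
  obtain ⟨H, κ, hκ, hHa, hHU⟩ := hΨ.family hr F y U hU hFU
  obtain ⟨s₀, hs₀, k, hk, p₀, hp₀⟩ := hγc.close hf hmono hfγ 0 hrec' (δ := κ / 2) (by positivity)
  -- the perturbed maps on the circle
  have hHi : ∀ s t (i : ℕ), i < m → (H s)^[i] (γ t) = F^[i] (γ t) := by
    intro s t i
    induction i with
    | zero => exact fun _ => rfl
    | succ i ih =>
      intro hi
      rw [Function.iterate_succ_apply', ih (by omega), hHa, ← Function.iterate_succ_apply' F]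
      exact hfix' _ (by omega) hi _ _
  have hHm : ∀ s t, (H s)^[m] (γ t) = γ (tr f s t) := by
    intro s t
    obtain ⟨m', rfl⟩ := Nat.exists_eq_add_of_le' hm
    rw [Function.iterate_succ_apply', hHi s t m' (by omega), hHa, ← Function.iterate_succ_apply' F,
      hfγ]
    show Ψ s (Ψ (f t) y) = Ψ (f t + s) y
    rw [← hΨ.add, add_comm]
  have hHk : ∀ s (q : ℕ) t, (H s)^[m * q] (γ t) = γ ((tr f s)^[q] t) := by
    intro s q
    induction q with
    | zero => intro t; rfl
    | succ q ih =>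
      intro t
      rw [Nat.mul_succ, Function.iterate_add_apply, hHm, ih, Function.iterate_succ_apply]
  have hmk : 1 ≤ m * k := Nat.mul_pos hm hk
  obtain ⟨t₁, p₁, h₁⟩ := cont_per hf (by
    intro t
    have h1 : γ (f (t + 1)) = γ (f t) := by
      rw [← hfγ, ← hfγ]
      have := hγc.add_int t 1
      simp only [Int.cast_one] at this
      rw [this]
    obtain ⟨j, hj⟩ := (hγc.inj _ _).1 h1
    exact ⟨j, by linarith⟩) (δ := κ / 2) (k := k) (by
      intro s hs t p hp
      have hsU : H s ∈ U := hHU s (by linarith)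
      have hγp : (H s)^[m * k] (γ t) = γ t := by
        rw [hHk, hp, hγc.add_int]
      obtain ⟨e, he, hd⟩ := hΨ.noncrit hne' t
      refine nd_curve hmk (hΨ.orb y) (f := (tr f s)^[k]) ?_ (fun t => hHk s k t) hp
        (fun t => hγc.add_int t p) (hH _ hsU _ ⟨m * k, hmk, hγp⟩) he hd
      exact (tr_cont hf k).comp (continuous_const.prodMk continuous_id))
    ⟨s₀, hs₀, 0, p₀, hp₀⟩
  exact hγc.per_of_fix hcont hinj hmk (hf.iterate k) (hmono.iterate k) (fun t => hit k t) h₁ 0
    hrecAt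

end Pool.Agent.K4H46.CI
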